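import Pool.Agent.TH839.ZT.Dns
import Pool.Agent.TH264.ZT.Ne
import Pool.Agent.TH645.ZT.Sad
import Pool.Agent.TH757.ZT.Sadu
import Pool.Agent.TH364.ZT.Tay

/-!
# Zero-density estimates for zeta and for the derivatives of the Riemann xi function

Let `ξ(s) = s (s - 1) π^(-s/2) Γ(s/2) ζ(s)`.  The Riemann hypothesis implies that the zeros of all derivatives `ξ^(n)`
are on the line `Re s = 1/2`; unconditionally the proportion of zeros of `ξ^(n)` on the line increases to `1` as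
`n → ∞` (Conrey 1983), and for `n ≥ C log T` all zeros of height at most `T` are on the line.  So one expects that
estimates for the number `N_n(σ, T)` of the zeros of `ξ^(n)` with `Re s ≥ σ`, `0 < Im s ≤ T` are weaker statements than
the estimates for `N(σ, T) = N_0(σ, T)`.  We show that for `n = o(log T / log log T)` they are equivalent, and in
particular the density hypothesis holds if and only if it holds for the zeros of one derivative.  More generally let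
`N_n(σ; U, T)` be the number of the zeros of `ξ^(n)` with `Re s ≥ σ`, `U < Im s ≤ T` (with multiplicity).

(1) (Local.) For each `δ > 0` there are `κ > 0`, `W` and `X₀` such that for `σ ≥ 1/2`: for every zero `s` of `ξ^(n)`
with `Re s ≥ σ + δ`, `Im s ≥ X₀`, `n ≤ κ log Im s` there is a zero `z` of zeta with `Re z ≥ σ`, `|Im z - Im s| ≤ 21`; for
every zero `z` of zeta with `Re z ≥ σ + δ`, `Im z ≥ X₀` and all `n ≤ κ log Im z / log log Im z` there is a zero `s` of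
`ξ^(n)` with `Re s ≥ σ`, `|Im s - Im z| ≤ W log Im z`.

(2) For each `δ > 0` there are `κ > 0`, `K`, `W` and `X₀` such that for `X₀ ≤ U ≤ T`, `σ ≥ 1/2`:
`N_n(σ + δ; U, T) ≤ K log T N_0(σ; U - 21, T + 21)` for `n ≤ κ log U`, and
`N_0(σ + δ; U, T) ≤ K (log T)² N_n(σ; U - W log T, T + W log T)` for `n ≤ κ log U / log log T`.

(3) Let `f ≥ 0` be continuous on `[1/2, 1]` with `f(1/2) ≥ 1`.  The following assertions are equivalent:
`N(σ, T) ≪ T^(f(σ) + ε)` for each `ε > 0`, uniformly in `1/2 ≤ σ ≤ 1`; for each `ε > 0` there is `κ > 0` such that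
`N_n(σ, T) ≪ T^(f(σ) + ε)` uniformly in `1/2 ≤ σ ≤ 1` and `n ≤ κ log T`; for some (or for every) function
`ν(T) = o(log T / log log T)` one has `N_ν(T)(σ, T) ≪ T^(f(σ) + ε)` for each `ε > 0`, uniformly in `σ`.

(4) In particular for each `n ≥ 0` the density hypothesis is equivalent to `N_n(σ, T) ≪ T^(2(1 - σ) + ε)`.

Proof.  (1) is the local theorem of `MP_77948b_nt/ZeroFreeDerivatives` for zeta, see there.  For (2) we choose for
each zero on the left side a zero of the other function at distance at most `w` in height, `w = 21` or `W log T`; by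
Jensen's formula, uniformly in `n ≤ log T`, there are `O(log T)` zeros in a window of length `2`, so each zero is
chosen at most `O(w log T)` times.  (3) follows with `U = T^a`, `a = a(ε)`, and the uniform continuity of `f`.

The modules are `Pool.Agent.TH839.ZT`, with parts by helpers 264, 364, 645 and 757.
-/

set_option autoImplicit false

namespace Pool.Agent.Results.MP_4467b5_nt.DerivativesDensity

/-- `ξ(s) = s (s - 1) π^(-s/2) Γ(s/2) ζ(s)`, an entire function. -/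
noncomputable def xi (s : ℂ) : ℂ := s * (s - 1) * completedRiemannZeta₀ s + 1

/-- The number of the zeros `s` of `F` with `Re s ≥ σ`, `U < Im s ≤ T`, counted with multiplicity. -/
noncomputable def count (F : ℂ → ℂ) (σ U T : ℝ) : ℕ :=
  ∑ᶠ s ∈ {s : ℂ | F s = 0 ∧ σ ≤ s.re ∧ U < s.im ∧ s.im ≤ T}, analyticOrderNatAt F s

/-- `N(σ, T)`: the number of zeros of `ζ` with real part at least `σ` and ordinate in `(0, T]`, counted with
multiplicity -/
noncomputable def zeroCount (σ T : ℝ) : ℕ := count riemannZeta σ 0 T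

/-- `N_n(σ, T)`: the same for the zeros of the `n`-th derivative of `ξ` -/
noncomputable def xiCount (n : ℕ) (σ T : ℝ) : ℕ := count (iteratedDeriv n xi) σ 0 T

/-- the density hypothesis -/
def DensityHypothesis : Prop :=
  ∀ ε : ℝ, 0 < ε → ∃ C : ℝ, 0 < C ∧ ∃ T₀ : ℝ, ∀ T : ℝ, T₀ ≤ T → ∀ σ : ℝ, 1 / 2 ≤ σ → σ ≤ 1 →
    (zeroCount σ T : ℝ) ≤ C * T ^ (2 * (1 - σ) + ε)

/-- `ν(T) = o(log T / log log T)` -/
def Small (ν : ℝ → ℕ) : Prop := ∀ κ : ℝ, 0 < κ → ∃ T₀ : ℝ, ∀ T : ℝ, T₀ ≤ T →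
  ν T * Real.log (Real.log T) ≤ κ * Real.log T

open Pool.Agent.TH839.ZT in
lemma small_const (n : ℕ) : Small fun _ => n := by
  intro κ hκ
  obtain ⟨T₀, hT₀⟩ := Filter.eventually_atTop.1 ((Real.tendsto_log_atTop.eventually
    ((Real.isLittleO_log_id_atTop.bound (show (0 : ℝ) < κ / (n + 1) by positivity)).and
      (Filter.eventually_ge_atTop 1))))
  refine ⟨T₀, fun T hT => ?_⟩
  obtain ⟨h1, h2⟩ := hT₀ T hT
  have h3 : 0 ≤ Real.log (Real.log T) := Real.log_nonneg h2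
  rw [Real.norm_eq_abs, Real.norm_eq_abs, abs_of_nonneg h3, id, abs_of_nonneg (by linarith)] at h1
  have h4 : (n : ℝ) / (n + 1) ≤ 1 := by
    rw [div_le_one (by positivity)]
    linarith
  calc (n : ℝ) * Real.log (Real.log T) ≤ n * (κ / (n + 1) * Real.log T) :=
        mul_le_mul_of_nonneg_left h1 (Nat.cast_nonneg n)
    _ = n / (n + 1) * (κ * Real.log T) := by
        field_simp
    _ ≤ 1 * (κ * Real.log T) := mul_le_mul_of_nonneg_right h4 (by positivity)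
    _ = _ := one_mul _

theorem result :
    -- (1)
    (∀ δ : ℝ, 0 < δ → ∃ κ W X₀ : ℝ, 0 < κ ∧ ∀ (σ : ℝ) (n : ℕ), 1 / 2 ≤ σ →
      (∀ s : ℂ, X₀ ≤ s.im → n ≤ κ * Real.log s.im → iteratedDeriv n xi s = 0 → σ + δ ≤ s.re →
        ∃ z : ℂ, riemannZeta z = 0 ∧ σ ≤ z.re ∧ |z.im - s.im| ≤ 21) ∧
      (∀ z : ℂ, X₀ ≤ z.im → n * Real.log (Real.log z.im) ≤ κ * Real.log z.im → riemannZeta z = 0 →
        σ + δ ≤ z.re → ∃ s : ℂ, iteratedDeriv n xi s = 0 ∧ σ ≤ s.re ∧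
          |s.im - z.im| ≤ W * Real.log z.im)) ∧
    -- (2)
    (∀ δ : ℝ, 0 < δ → ∃ κ W K X₀ : ℝ, 0 < κ ∧ ∀ (U T σ : ℝ) (n : ℕ), X₀ ≤ U → U ≤ T → 1 / 2 ≤ σ →
      (n ≤ κ * Real.log U → (count (iteratedDeriv n xi) (σ + δ) U T : ℝ) ≤
        K * Real.log T * count riemannZeta σ (U - 21) (T + 21)) ∧
      (n * Real.log (Real.log T) ≤ κ * Real.log U → (count riemannZeta (σ + δ) U T : ℝ) ≤
        K * Real.log T ^ 2 *
          count (iteratedDeriv n xi) σ (U - W * Real.log T) (T + W * Real.log T))) ∧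
    -- (3)
    (∀ f : ℝ → ℝ, ContinuousOn f (Set.Icc (1 / 2) 1) → (∀ σ ∈ Set.Icc (1 / 2 : ℝ) 1, 0 ≤ f σ) →
      1 ≤ f (1 / 2) →
      ((∀ ε : ℝ, 0 < ε → ∃ C : ℝ, 0 < C ∧ ∃ T₀ : ℝ, ∀ T : ℝ, T₀ ≤ T → ∀ σ : ℝ, 1 / 2 ≤ σ → σ ≤ 1 →
        (zeroCount σ T : ℝ) ≤ C * T ^ (f σ + ε)) ↔
      (∀ ε : ℝ, 0 < ε → ∃ κ : ℝ, 0 < κ ∧ ∃ C : ℝ, 0 < C ∧ ∃ T₀ : ℝ, ∀ T : ℝ, T₀ ≤ T →
        ∀ n : ℕ, n ≤ κ * Real.log T → ∀ σ : ℝ, 1 / 2 ≤ σ → σ ≤ 1 →
          (xiCount n σ T : ℝ) ≤ C * T ^ (f σ + ε))) ∧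
      ∀ ν : ℝ → ℕ, Small ν →
      ((∀ ε : ℝ, 0 < ε → ∃ C : ℝ, 0 < C ∧ ∃ T₀ : ℝ, ∀ T : ℝ, T₀ ≤ T → ∀ σ : ℝ, 1 / 2 ≤ σ → σ ≤ 1 →
        (zeroCount σ T : ℝ) ≤ C * T ^ (f σ + ε)) ↔
      (∀ ε : ℝ, 0 < ε → ∃ C : ℝ, 0 < C ∧ ∃ T₀ : ℝ, ∀ T : ℝ, T₀ ≤ T → ∀ σ : ℝ, 1 / 2 ≤ σ → σ ≤ 1 →
        (xiCount (ν T) σ T : ℝ) ≤ C * T ^ (f σ + ε)))) ∧
    -- (4)
    (∀ n : ℕ, DensityHypothesis ↔
      ∀ ε : ℝ, 0 < ε → ∃ C : ℝ, 0 < C ∧ ∃ T₀ : ℝ, ∀ T : ℝ, T₀ ≤ T → ∀ σ : ℝ, 1 / 2 ≤ σ → σ ≤ 1 →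
        (xiCount n σ T : ℝ) ≤ C * T ^ (2 * (1 - σ) + ε)) := by
  have hne := Pool.Agent.TH264.ZT.ne
  have hsad := Pool.Agent.TH645.ZT.sad
  have hsadu := Pool.Agent.TH757.ZT.sadu
  have htay := Pool.Agent.TH364.ZT.tay
  have H3 : ∀ f : ℝ → ℝ, ContinuousOn f (Set.Icc (1 / 2) 1) →
      (∀ σ ∈ Set.Icc (1 / 2 : ℝ) 1, 0 ≤ f σ) → 1 ≤ f (1 / 2) →
      (Pool.Agent.TH839.ZT.Dz f ↔ Pool.Agent.TH839.ZT.Dall f) ∧
      ∀ ν : ℝ → ℕ, Small ν → (Pool.Agent.TH839.ZT.Dz f ↔ Pool.Agent.TH839.ZT.Dnu f ν) := by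
    intro f hf hf0 hf1
    have hza : Pool.Agent.TH839.ZT.Dz f → Pool.Agent.TH839.ZT.Dall f :=
      Pool.Agent.TH839.ZT.all_of_z hne hsadu hf hf0 hf1
    have hnz : ∀ ν : ℝ → ℕ, Small ν → Pool.Agent.TH839.ZT.Dnu f ν → Pool.Agent.TH839.ZT.Dz f :=
      fun ν hν => Pool.Agent.TH839.ZT.z_of_nu hne hsad htay hf hf0 hf1 hν
    have han : ∀ ν : ℝ → ℕ, Small ν → Pool.Agent.TH839.ZT.Dall f → Pool.Agent.TH839.ZT.Dnu f ν :=
      fun ν hν => Pool.Agent.TH839.ZT.nu_of_all hν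
    exact ⟨⟨hza, fun h => hnz _ (small_const 0) (han _ (small_const 0) h)⟩,
      fun ν hν => ⟨fun h => han ν hν (hza h), hnz ν hν⟩⟩
  refine ⟨fun δ hδ => ?_, fun δ hδ => ?_, H3, fun n => ?_⟩
  · obtain ⟨κ1, X1, hκ1, hX1, H1⟩ := Pool.Agent.TH839.ZT.loc_up hne hsadu δ hδ
    obtain ⟨κ2, W, X2, hκ2, hW, hX2, H2⟩ := Pool.Agent.TH839.ZT.loc_down hne hsad htay δ hδ
    refine ⟨min κ1 κ2, W, max X1 X2, lt_min hκ1 hκ2, fun σ n hσ =>
      ⟨fun s hs hn hz hre => ?_, fun z hs hn hz hre => ?_⟩⟩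
    · have h1 : X1 ≤ s.im := (le_max_left _ _).trans hs
      have h2 : 0 ≤ Real.log s.im := Real.log_nonneg (by linarith)
      exact H1 σ n s hσ h1 (hn.trans (mul_le_mul_of_nonneg_right (min_le_left _ _) h2)) hz hre
    · have h1 : X2 ≤ z.im := (le_max_right _ _).trans hs
      have h2 : 0 ≤ Real.log z.im := Real.log_nonneg (by linarith)
      exact H2 σ n z hσ h1 (hn.trans (mul_le_mul_of_nonneg_right (min_le_right _ _) h2)) hz hre
  · obtain ⟨κ1, K1, X1, hκ1, hK1, hX1, H1⟩ := Pool.Agent.TH839.ZT.cmp_up hne hsadu δ hδ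
    obtain ⟨κ2, W, K2, X2, hκ2, hW, hK2, hX2, H2⟩ := Pool.Agent.TH839.ZT.cmp_down hne hsad htay δ hδ
    refine ⟨min κ1 κ2, W, max K1 K2, max X1 X2, lt_min hκ1 hκ2, fun U T σ n hU hUT hσ =>
      ⟨fun hn => ?_, fun hn => ?_⟩⟩
    · have h1 : X1 ≤ U := (le_max_left _ _).trans hU
      have h2 : 0 ≤ Real.log U := Real.log_nonneg (by linarith)
      have h3 : 0 ≤ Real.log T := Real.log_nonneg (by linarith)
      refine (H1 U T σ n h1 hUT hσ (hn.trans (mul_le_mul_of_nonneg_right (min_le_left _ _) h2))).trans ?_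
      refine mul_le_mul_of_nonneg_right ?_ (Nat.cast_nonneg _)
      exact mul_le_mul_of_nonneg_right (le_max_left _ _) h3
    · have h1 : X2 ≤ U := (le_max_right _ _).trans hU
      have h2 : 0 ≤ Real.log U := Real.log_nonneg (by linarith)
      refine (H2 U T σ n h1 hUT hσ (hn.trans (mul_le_mul_of_nonneg_right (min_le_right _ _) h2))).trans ?_
      refine mul_le_mul_of_nonneg_right ?_ (Nat.cast_nonneg _)
      exact mul_le_mul_of_nonneg_right (le_max_right _ _) (by positivity)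
  · refine (H3 (fun σ => 2 * (1 - σ)) ?_ ?_ ?_).2 (fun _ => n) (small_const n)
    · exact Continuous.continuousOn (by fun_prop)
    · rintro σ ⟨-, h⟩
      show 0 ≤ 2 * (1 - σ)
      linarith
    · norm_num

end Pool.Agent.Results.MP_4467b5_nt.DerivativesDensity
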