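import Pool.Agent.TH804.LV6

/-!
# The density hypothesis as a statement on large values of the zeta-function

Unconditional two-sided comparison of `N(σ, T)` with the number of well-spaced large values of `ζ` slightly to
the left, and two equivalent forms of the density hypothesis: one in terms of well-spaced points at which
`|ζ| ≥ T ^ η`, one in terms of the measure of the set of `t ≤ T` with `|ζ(σ + it)| ≥ T ^ η`.
-/

set_option autoImplicit false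

open Complex MeasureTheory

namespace Pool.Agent.Results.MP_4467b5_nt.LargeValueForm

/-- `N(σ, T)`: the number of zeros of `ζ` with real part at least `σ` and ordinate in `(0, T]`, counted with
multiplicity -/
noncomputable def zeroCount (σ T : ℝ) : ℕ :=
  ∑ᶠ s ∈ {s : ℂ | riemannZeta s = 0 ∧ σ ≤ s.re ∧ 0 < s.im ∧ s.im ≤ T}, analyticOrderNatAt riemannZeta s

/-- the density hypothesis -/
def DensityHypothesis : Prop :=
  ∀ ε : ℝ, 0 < ε → ∃ C : ℝ, 0 < C ∧ ∃ T₀ : ℝ, ∀ T : ℝ, T₀ ≤ T → ∀ σ : ℝ, 1 / 2 ≤ σ → σ ≤ 1 →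
    (zeroCount σ T : ℝ) ≤ C * T ^ (2 * (1 - σ) + ε)

/-- `S` is a finite set of points with real part at least `σ` and ordinate in `[2, T]` at which `|ζ| ≥ V`, and
the ordinates of distinct points of `S` differ by at least `1` -/
def LargeSet (V σ T : ℝ) (S : Finset ℂ) : Prop :=
  (∀ s ∈ S, σ ≤ s.re ∧ 2 ≤ s.im ∧ s.im ≤ T ∧ V ≤ ‖riemannZeta s‖) ∧
    ∀ s ∈ S, ∀ s' ∈ S, s ≠ s' → 1 ≤ |s.im - s'.im|

/-- the bound `T ^ (2 (1 - σ) + ε)` for the number of well-spaced points at which `|ζ| ≥ T ^ η` -/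
def FewLargeValues : Prop :=
  ∀ ε : ℝ, 0 < ε → ∀ η : ℝ, 0 < η → ∃ C : ℝ, 0 < C ∧ ∃ T₀ : ℝ, ∀ T : ℝ, T₀ ≤ T →
    ∀ σ : ℝ, 1 / 2 ≤ σ → σ ≤ 1 → ∀ S : Finset ℂ, LargeSet (T ^ η) σ T S →
      (S.card : ℝ) ≤ C * T ^ (2 * (1 - σ) + ε)

/-- the bound `T ^ (2 (1 - σ) + ε)` for the measure of the `t ∈ [0, T]` with `|ζ(σ + it)| ≥ T ^ η` -/
def SmallMeasure : Prop :=
  ∀ ε : ℝ, 0 < ε → ∀ η : ℝ, 0 < η → ∃ C : ℝ, 0 < C ∧ ∃ T₀ : ℝ, ∀ T : ℝ, T₀ ≤ T →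
    ∀ σ : ℝ, 1 / 2 ≤ σ → σ ≤ 1 →
      volume {t : ℝ | 0 ≤ t ∧ t ≤ T ∧ T ^ η ≤ ‖riemannZeta (σ + t * I)‖} ≤
        ENNReal.ofReal (C * T ^ (2 * (1 - σ) + ε))

/-- **(1)** unconditionally, every well-spaced set of `R` points with `|ζ| ≥ T ^ η` in `Re s ≥ σ` gives
`N(σ - δ, T + 1) ≫ R log T`; **(2)** unconditionally, conversely
`N(σ, T) ≪ T ^ (2 (1 - σ) + ε) + R log T` if no well-spaced set in `Re s ≥ σ - δ` with `|ζ| ≥ T ^ η` has more than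
`R` points, with `η` depending on `ε, δ` only; **(3)**, **(4)** the density hypothesis is equivalent to each of
`FewLargeValues` and `SmallMeasure`. -/
theorem result :
    (∀ η δ : ℝ, 0 < η → 0 < δ → ∃ C : ℝ, 0 < C ∧ ∃ T₀ : ℝ, ∀ T : ℝ, T₀ ≤ T → ∀ σ : ℝ, 1 / 2 ≤ σ → σ ≤ 1 →
      ∀ S : Finset ℂ, LargeSet (T ^ η) σ T S → (S.card : ℝ) * Real.log T ≤ C * zeroCount (σ - δ) (T + 1)) ∧
    (∀ ε δ : ℝ, 0 < ε → 0 < δ → ∃ η : ℝ, 0 < η ∧ ∃ C : ℝ, 0 < C ∧ ∃ T₀ : ℝ, ∀ T : ℝ, T₀ ≤ T →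
      ∀ σ : ℝ, 1 / 2 ≤ σ → σ ≤ 1 → ∀ R : ℝ, 0 ≤ R →
        (∀ S : Finset ℂ, LargeSet (T ^ η) (σ - δ) (T + 1) S → (S.card : ℝ) ≤ R) →
          (zeroCount σ T : ℝ) ≤ C * (T ^ (2 * (1 - σ) + ε) + R * Real.log T)) ∧
    (DensityHypothesis ↔ FewLargeValues) ∧ (DensityHypothesis ↔ SmallMeasure) :=
  ⟨fun _ _ hη hδ => Pool.Agent.TH804.LV.lower hη hδ, fun _ _ hε hδ => Pool.Agent.TH804.LV.upper hε hδ,
    Pool.Agent.TH804.LV.main.1, Pool.Agent.TH804.LV.main.2⟩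

end Pool.Agent.Results.MP_4467b5_nt.LargeValueForm
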