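import Pool.Agent.TH804.SD13

/-!
# The density hypothesis and the zeros of the sections of zeta

Unconditional two-sided comparison between the zeros of `ζ` and of `ζ_N(s) = ∑_{n ≤ N} n ^ (-s)` in
`Re s ≥ σ`, `T < Im s ≤ 2T` for `N ≤ T ^ 2`, the equivalence of the density hypothesis with the same bound for the
sections of length `T ^ θ` for each fixed `1/2 ≤ θ ≤ 2`, and its failure for `θ > 2`.
-/

set_option autoImplicit false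

open Complex

namespace Pool.Agent.Results.MP_4467b5_nt.SectionsDensity

/-- the section `∑_{n ≤ N} n ^ (-s)` of the zeta series -/
noncomputable def zetaSection (N : ℕ) (s : ℂ) : ℂ := ∑ n ∈ Finset.range N, ((n : ℂ) + 1) ^ (-s)

/-- the number of zeros of `f` with real part at least `σ` and ordinate in `(a, b]`, counted with multiplicity -/
noncomputable def count (f : ℂ → ℂ) (σ a b : ℝ) : ℕ :=
  ∑ᶠ s ∈ {s : ℂ | f s = 0 ∧ σ ≤ s.re ∧ a < s.im ∧ s.im ≤ b}, analyticOrderNatAt f s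

/-- the density hypothesis -/
def DensityHypothesis : Prop :=
  ∀ ε : ℝ, 0 < ε → ∃ C : ℝ, 0 < C ∧ ∃ T₀ : ℝ, ∀ T : ℝ, T₀ ≤ T → ∀ σ : ℝ, 1 / 2 ≤ σ → σ ≤ 1 →
    (count riemannZeta σ 0 T : ℝ) ≤ C * T ^ (2 * (1 - σ) + ε)

/-- the same bound for the sections of length `T ^ θ` at the heights between `T` and `2T` -/
def SectionDensity (θ : ℝ) : Prop :=
  ∀ ε : ℝ, 0 < ε → ∃ C : ℝ, 0 < C ∧ ∃ T₀ : ℝ, ∀ T : ℝ, T₀ ≤ T → ∀ σ : ℝ, 1 / 2 ≤ σ → σ ≤ 1 →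
    (count (zetaSection ⌊T ^ θ⌋₊) σ T (2 * T) : ℝ) ≤ C * T ^ (2 * (1 - σ) + ε)

/-- **(1)**, **(2)** for `N ≤ T ^ 2` the zeros of the section and of zeta majorise each other up to a shift of
`σ`, a factor `log T` and the error `T ^ (1 + ε) N ^ (-2 (2 σ - 1))`; **(3)** the density hypothesis is equivalent
to the same bound for the sections of length `T ^ θ`, for each `1/2 ≤ θ ≤ 2`; **(4)** for `θ > 2` the sections of
length `T ^ θ` violate the bound. -/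
theorem result :
    (∀ δ ε : ℝ, 0 < δ → δ ≤ 1 / 2 → 0 < ε → ∃ C : ℝ, 0 < C ∧ ∃ T₀ : ℝ, ∀ T : ℝ, T₀ ≤ T → ∀ N : ℕ, 1 ≤ N →
      (N : ℝ) ≤ T * T → ∀ σ : ℝ, 1 / 2 + δ ≤ σ → σ ≤ 1 →
        (count (zetaSection N) σ T (2 * T) : ℝ) ≤ C * Real.log T *
          ((count riemannZeta (σ - δ) (T - 2) (2 * T + 2) : ℝ) +
            T ^ (1 + ε) * (N : ℝ) ^ (-(2 * (2 * σ - 1))))) ∧
    (∀ δ ε : ℝ, 0 < δ → δ ≤ 1 / 2 → 0 < ε → ∃ C : ℝ, 0 < C ∧ ∃ T₀ : ℝ, ∀ T : ℝ, T₀ ≤ T → ∀ N : ℕ, 1 ≤ N →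
      (N : ℝ) ≤ T * T → ∀ σ : ℝ, 1 / 2 + δ ≤ σ → σ ≤ 1 →
        (count riemannZeta σ T (2 * T) : ℝ) ≤ C * Real.log T *
          ((count (zetaSection N) (σ - δ) (T - 2) (2 * T + 2) : ℝ) +
            T ^ (1 + ε) * (N : ℝ) ^ (-(2 * (2 * σ - 1))))) ∧
    (∀ θ : ℝ, 1 / 2 ≤ θ → θ ≤ 2 → (DensityHypothesis ↔ SectionDensity θ)) ∧
    (∀ θ : ℝ, 2 < θ → ¬ SectionDensity θ) :=
  ⟨fun _ _ h1 h2 h3 => Pool.Agent.TH804.SD.sec_le_zeta h1 h2 h3,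
    fun _ _ h1 h2 h3 => Pool.Agent.TH804.SD.zeta_le_sec h1 h2 h3,
    fun _ h1 h2 => ⟨Pool.Agent.TH804.SD.SecDH_of_DH h1 h2, Pool.Agent.TH804.SD.DH_of_SecDH h1 h2⟩,
    fun _ h => Pool.Agent.TH804.SD.not_SecDH h⟩

end Pool.Agent.Results.MP_4467b5_nt.SectionsDensity
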