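import Pool.Agent.TH804.SF4

/-!
# Zero-density estimates and the derivatives of zeta: a Speiser-type theorem on every line

Speiser (1934): the Riemann hypothesis holds if and only if `ζ'` has no zeros in `0 < Re s < 1/2`; Levinson and
Montgomery (1974) compare the total number of zeros of `ζ` and `ζ'` in `0 < Re s < 1/2`, up to height `T`.  Here the
comparison is made on each line: let `P ≠ 0` be a polynomial and `a` a complex number; the zeros of `ζ` in `Re s ≥ σ`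
are compared with the solutions of `P(D)ζ(s) = a` in the opposite strip `0 < Re s ≤ 1 - σ` (for `P = X`, `a = 0` these
are the zeros of `ζ'`).  Everything is uniform in `1/2 + δ ≤ σ ≤ 1`.

(1) Every solution of `P(D)ζ(s) = a` with `0 < Re s ≤ 1 - σ` and large ordinate lies at bounded distance from the height
of a zero of zeta with real part at least `σ - δ`; and conversely every zero with real part at least `σ` and large
ordinate lies at bounded distance from the height of a solution with `0 < Re s ≤ 1 - σ + δ`.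

(2) Let `N(σ, T)` be the number of the zeros in the problem, `L(σ, T)` the number of the solutions with
`0 < Re s ≤ 1 - σ`, `0 < Im s ≤ T`, with multiplicity.  Then `L(σ, T) ≪ 1 + N(σ - δ, T + W) log T` and
`N(σ, T) ≪ 1 + L(σ - δ, T + W) log T`.

(3) So `N` and `L` satisfy the same density estimates `T^(f(σ) + ε)`, for all continuous `f ≥ 0` with `f(1/2) ≥ 1`.

(4) In particular the density hypothesis holds if and only if `L(σ, T) ≪ T^(2(1-σ)+ε)`, uniformly in `1/2 ≤ σ ≤ 1`.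

Proof.  If `ζ` has no zeros in `Re s ≥ σ - δ`, `|Im s - T| ≤ 2`, then `|ζ|` is of size `T^(o(1))` in `Re s ≥ σ - δ/2`
near the height `T`, so of size `T^(1/2 - Re s + o(1))` in the opposite region, by the functional equation; there the
logarithmic derivative is `-(1 + o(1)) log T`, hence also `P(D)ζ` is of this size and not equal to `a`.
Conversely suppose that there are no solutions in `0 < Re s ≤ 1 - σ + δ`, `|Im s - T| ≤ W`.  The local theorem of
`MP_4e5e8a_nt/SpeiserLindelof`, in the form for the functions `T^(1/2 - σ') ζ(1 - σ' + iT + z)` with `σ' ≥ σ - δ`,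
gives `|ζ| ≤ T^(o(1))` in `Re s ≥ σ - δ`; so `P(D)ζ - a` is at most of size `T^(1/2 - Re s + o(1))` in
`Re s ≤ 1 - σ + δ - o(1)`, and, having no zeros there, at least of this size, by Harnack's inequality.  Now one goes back from `(D - λ)G` to `G`: if `(D - λ)G` has no zeros and
decays like `exp(-(1 + o(1)) Re s log T)` to the right, and `G` has the expected upper bound, then integration from
the right to the left shows that `G` has also the expected lower bound.  After `deg P` steps one obtains a lower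
bound for `ζ`, so `ζ` has no zeros opposite to the window.
-/

set_option autoImplicit false

open Polynomial

namespace Pool.Agent.Results.MP_4467b5_nt.SpeiserDensity

/-- `N(σ, T)`: the number of zeros of `ζ` with real part at least `σ` and ordinate in `(0, T]`, counted with
multiplicity -/
noncomputable def zeroCount (σ T : ℝ) : ℕ :=
  ∑ᶠ s ∈ {s : ℂ | riemannZeta s = 0 ∧ σ ≤ s.re ∧ 0 < s.im ∧ s.im ≤ T}, analyticOrderNatAt riemannZeta s

/-- the density hypothesis -/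
def DensityHypothesis : Prop :=
  ∀ ε : ℝ, 0 < ε → ∃ C : ℝ, 0 < C ∧ ∃ T₀ : ℝ, ∀ T : ℝ, T₀ ≤ T → ∀ σ : ℝ, 1 / 2 ≤ σ → σ ≤ 1 →
    (zeroCount σ T : ℝ) ≤ C * T ^ (2 * (1 - σ) + ε)

/-- `P(D)ζ = ∑ p_i ζ^(i)`, for `P = ∑ p_i X^i`. -/
noncomputable def opZeta (P : ℂ[X]) (s : ℂ) : ℂ := P.sum fun i c => c * iteratedDeriv i riemannZeta s

/-- `L(σ, T)`: the number of `s` with `P(D)ζ(s) = a`, `0 < Re s ≤ 1 - σ`, `0 < Im s ≤ T`, counted with multiplicity
(the order of the zero of `P(D)ζ - a`) -/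
noncomputable def pointCount (P : ℂ[X]) (a : ℂ) (σ T : ℝ) : ℕ :=
  ∑ᶠ s ∈ {s : ℂ | opZeta P s = a ∧ 0 < s.re ∧ s.re ≤ 1 - σ ∧ 0 < s.im ∧ s.im ≤ T},
    analyticOrderNatAt (fun s => opZeta P s - a) s

theorem result (P : ℂ[X]) (hP : P ≠ 0) (a : ℂ) :
    -- (1) the local theorem
    (∀ δ : ℝ, 0 < δ → ∃ W T₀ : ℝ, ∀ σ : ℝ, 1 / 2 + δ ≤ σ → σ ≤ 1 →
      (∀ s : ℂ, opZeta P s = a → 0 < s.re → s.re ≤ 1 - σ → T₀ ≤ s.im →
        ∃ z : ℂ, riemannZeta z = 0 ∧ σ - δ ≤ z.re ∧ |z.im - s.im| ≤ W) ∧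
      (∀ z : ℂ, riemannZeta z = 0 → σ ≤ z.re → T₀ ≤ z.im →
        ∃ s : ℂ, opZeta P s = a ∧ 0 < s.re ∧ s.re ≤ 1 - σ + δ ∧ |s.im - z.im| ≤ W)) ∧
    -- (2) the two-sided comparison
    (∀ δ : ℝ, 0 < δ → ∃ C : ℝ, 0 < C ∧ ∃ W : ℝ, 0 < W ∧ ∃ T₀ : ℝ, ∀ T : ℝ, T₀ ≤ T → ∀ σ : ℝ, 1 / 2 + δ ≤ σ → σ ≤ 1 →
      (pointCount P a σ T : ℝ) ≤ C * (1 + (zeroCount (σ - δ) (T + W) : ℝ) * Real.log T) ∧
      (zeroCount σ T : ℝ) ≤ C * (1 + (pointCount P a (σ - δ) (T + W) : ℝ) * Real.log T)) ∧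
    -- (3) all density estimates
    (∀ f : ℝ → ℝ, ContinuousOn f (Set.Icc (1 / 2) 1) → (∀ σ ∈ Set.Icc (1 / 2 : ℝ) 1, 0 ≤ f σ) → 1 ≤ f (1 / 2) →
      ((∀ ε : ℝ, 0 < ε → ∃ C : ℝ, 0 < C ∧ ∃ T₀ : ℝ, ∀ T : ℝ, T₀ ≤ T → ∀ σ : ℝ, 1 / 2 ≤ σ → σ ≤ 1 →
        (zeroCount σ T : ℝ) ≤ C * T ^ (f σ + ε)) ↔
      (∀ ε : ℝ, 0 < ε → ∃ C : ℝ, 0 < C ∧ ∃ T₀ : ℝ, ∀ T : ℝ, T₀ ≤ T → ∀ σ : ℝ, 1 / 2 ≤ σ → σ ≤ 1 →
        (pointCount P a σ T : ℝ) ≤ C * T ^ (f σ + ε)))) ∧
    -- (4) the density hypothesis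
    (DensityHypothesis ↔
      ∀ ε : ℝ, 0 < ε → ∃ C : ℝ, 0 < C ∧ ∃ T₀ : ℝ, ∀ T : ℝ, T₀ ≤ T → ∀ σ : ℝ, 1 / 2 ≤ σ → σ ≤ 1 →
        (pointCount P a σ T : ℝ) ≤ C * T ^ (2 * (1 - σ) + ε)) := by
  refine ⟨fun δ hδ => ?_, fun δ hδ => ?_, fun f hf hf0 hf1 => ?_, ?_⟩
  · exact Pool.Agent.TH804.SE.local_both hP a hδ
  · exact Pool.Agent.TH804.SE.two_sided hP a hδ
  · exact Pool.Agent.TH804.SE.dens_iff hP a hf hf0 hf1
  · refine Pool.Agent.TH804.SE.dens_iff hP a (f := fun σ => 2 * (1 - σ)) ?_ ?_ ?_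
    · exact Continuous.continuousOn (by fun_prop)
    · rintro σ ⟨-, h⟩
      show 0 ≤ 2 * (1 - σ)
      linarith
    · norm_num

end Pool.Agent.Results.MP_4467b5_nt.SpeiserDensity
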